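import Pool.Agent.Q215.RothMain

set_option autoImplicit false

/-!
# A Rothberger space which is not `ω`-Rothberger, in ZFC
-/

namespace Pool.Agent.Results.MP_f9bcb0_lc.NotOmega

open Set

/-- `𝒰` is an open cover of `X`. -/
def OpenCover {X : Type} [TopologicalSpace X] (𝒰 : Set (Set X)) : Prop :=
  (∀ U ∈ 𝒰, IsOpen U) ∧ ⋃₀ 𝒰 = univ

/-- `𝒰` is an `ω`-cover of `X`: an open cover with `X ∉ 𝒰` such that every finite set of points
is contained in some member of `𝒰`. -/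
def OmegaCover {X : Type} [TopologicalSpace X] (𝒰 : Set (Set X)) : Prop :=
  OpenCover 𝒰 ∧ univ ∉ 𝒰 ∧ ∀ F : Set X, F.Finite → ∃ U ∈ 𝒰, F ⊆ U

/-- `X` is Rothberger. -/
def Rothberger (X : Type) [TopologicalSpace X] : Prop :=
  ∀ 𝒰 : ℕ → Set (Set X), (∀ n, OpenCover (𝒰 n)) →
    ∃ U : ℕ → Set X, (∀ n, U n ∈ 𝒰 n) ∧ OpenCover (range U)

/-- `X` is `ω`-Rothberger. -/
def OmegaRothberger (X : Type) [TopologicalSpace X] : Prop :=
  ∀ 𝒰 : ℕ → Set (Set X), (∀ n, OmegaCover (𝒰 n)) →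
    ∃ U : ℕ → Set X, (∀ n, U n ∈ 𝒰 n) ∧ OmegaCover (range U)

/-- **There is (in ZFC) a Hausdorff space with a base of clopen sets which is Rothberger and not
`ω`-Rothberger.** -/
theorem result : ∃ (X : Type) (_ : TopologicalSpace X), T2Space X ∧
    TopologicalSpace.IsTopologicalBasis {U : Set X | IsClopen U} ∧
    Rothberger X ∧ ¬ OmegaRothberger X := by
  obtain ⟨S, hS, hS'⟩ := Pool.Agent.Q215.Roth.exists_split
  refine ⟨Pool.Agent.Q215.Roth.XX S, inferInstance, inferInstance,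
    Pool.Agent.Q215.Roth.basis_XX S, ?_, ?_⟩
  · intro 𝒰 h𝒰
    obtain ⟨U, hU, hU'⟩ := Pool.Agent.Q215.Roth.roth_XX hS hS' 𝒰 (fun n => (h𝒰 n).1)
      (fun n => (h𝒰 n).2)
    refine ⟨U, hU, ?_, ?_⟩
    · rintro _ ⟨n, rfl⟩
      exact (h𝒰 n).1 _ (hU n)
    · rw [sUnion_range]
      exact hU'
  · intro h
    obtain ⟨U, hU, -, -, hU'⟩ := h (fun _ => Pool.Agent.Q215.Roth.Cov S) fun _ =>
      ⟨⟨fun U hU => hU.1, Pool.Agent.Q215.Roth.cov_sUnion S⟩,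
        Pool.Agent.Q215.Roth.univ_notMem_cov S, Pool.Agent.Q215.Roth.cov_finite S⟩
    obtain ⟨F, hF, hF'⟩ := Pool.Agent.Q215.Roth.not_omega S U hU
    obtain ⟨_, ⟨n, rfl⟩, hn⟩ := hU' F hF
    exact hF' n hn

end Pool.Agent.Results.MP_f9bcb0_lc.NotOmega
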